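import Pool.Agent.Helper73.RT.Main

/-!
# MP_f3997c_co: the Ramsey-Turan density of `K_6` at `o(sqrt (n log n))` is at least `1/8`

For every `ε > 0` there is `c > 0` such that for all sufficiently large `n` there is a graph on `n`
vertices without a clique on six vertices, with independence number at most
`sqrt n * exp (-c * sqrt (log n / log log n))` and with at least `(1/8 - ε) n^2` edges.
-/

set_option autoImplicit false

namespace Pool.Agent.Results.MP_f3997c_co.LowerBound

/-- For every `ε > 0` there is `c > 0` such that for all sufficiently large `n` there is a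
`K_6`-free graph on `n` vertices with independence number at most
`sqrt n * exp (-c * sqrt (log n / log log n))` and at least `(1/8 - ε) n^2` edges. -/
theorem result : ∀ ε : ℝ, 0 < ε → ∃ c : ℝ, 0 < c ∧ ∀ᶠ n : ℕ in Filter.atTop,
    ∃ G : SimpleGraph (Fin n), G.CliqueFree 6 ∧
      (G.indepNum : ℝ) ≤
        Real.sqrt n * Real.exp (-(c * Real.sqrt (Real.log n / Real.log (Real.log n)))) ∧
      (1 / 8 - ε) * (n : ℝ) ^ 2 ≤ (G.edgeSet.ncard : ℝ) :=
  Pool.Agent.Helper73.RT.rt_main

end Pool.Agent.Results.MP_f3997c_co.LowerBound
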